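import Pool.Agent.Helper42.MC.ConeAsm
import Pool.Agent.Helper42.MC.LimitSide
import Pool.Agent.Helper42.MC.Extract

set_option autoImplicit false

open Filter MC

universe u

namespace Pool.Agent.Results.MP_675db4_al.MedianCones

/-- Every asymptotic cone of a branched free-by-cyclic group fails to be bilipschitz equivalent to
any median metric space. -/
theorem result (n : ℕ) (Φ : MulAut (FreeGroup (Fin n))) (hbr : Branched (MT Φ))
    (S : Set (MT Φ)) (hfin : S.Finite) (hS : Subgroup.closure S = ⊤)
    (ω : Ultrafilter ℕ) (hω : (ω : Filter ℕ) ≤ cofinite)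
    (s : ℕ → ℝ) (hs : Tendsto s atTop atTop)
    (M : Type u) [MetricSpace M] (hM : IsMedian M) :
    ¬ ∃ f : AsymCone (MT Φ) S hS ω s → M, Function.Bijective f ∧
      ∃ K : ℝ, ∀ x y, dist x y ≤ K * dist (f x) (f y) ∧ dist (f x) (f y) ≤ K * dist x y := by
  rintro ⟨f, hf, K, hK⟩
  have hs' : Tendsto s (ω : Filter ℕ) atTop := hs.mono_left (by rwa [← Nat.cofinite_eq_atTop])
  exact limit_side (cone_data (extract hbr) hfin hS ω s hs') hM f hf.2
    (fun x y => (hK x y).1) (fun x y => (hK x y).2)

end Pool.Agent.Results.MP_675db4_al.MedianCones
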